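import Mathlib
import Pool.Agent.Helper38.FM.Bridge

set_option autoImplicit false

namespace Pool.Agent.Results.MP_d88658_nt.FirstMoment

open Polynomial

/-- For every degree `d ≥ 3` the number of all triples `(f, x, y)`, `f` an integer polynomial of degree `d` without repeated
roots and with coefficients at most `H` in absolute value, `x`, `y` integers with `y ^ 2 = f(x)`, is
`≤ C H^(d+1) / (log H)^c`; for odd `d` the leading coefficient of `f` has to lie outside a set `E` of at most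
`C H / (log H)^c` integers. -/
theorem result (d : ℕ) (hd : 3 ≤ d) :
    ∃ C c : ℝ, 0 < C ∧ 0 < c ∧ ∀ H : ℕ, 2 ≤ H → ∃ E : Finset ℤ, (Even d → E = ∅) ∧
      (E.card : ℝ) ≤ C * H / (Real.log H) ^ c ∧
      {p : ℤ[X] × ℤ × ℤ | p.1.natDegree = d ∧ (∀ i, |p.1.coeff i| ≤ (H : ℤ)) ∧
        p.1.leadingCoeff ∉ E ∧ (p.1.map (Int.castRingHom ℚ)).Separable ∧
        p.2.2 ^ 2 = p.1.eval p.2.1}.Finite ∧
      (({p : ℤ[X] × ℤ × ℤ | p.1.natDegree = d ∧ (∀ i, |p.1.coeff i| ≤ (H : ℤ)) ∧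
        p.1.leadingCoeff ∉ E ∧ (p.1.map (Int.castRingHom ℚ)).Separable ∧
        p.2.2 ^ 2 = p.1.eval p.2.1}.ncard : ℕ) : ℝ) ≤
        C * (H : ℝ) ^ (d + 1) / (Real.log H) ^ c :=
  Pool.Agent.Helper38.FM.first_moment_all d hd

end Pool.Agent.Results.MP_d88658_nt.FirstMoment
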